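import Pool.Agent.Helper32.Grimm.Asymp

/-!
# Grimm assignments for all blocks of length at most `exp (a √(log x log log x))`,
# for almost all starting points

`HasAssignment n k`: the block `n, ..., n+k-1` has pairwise distinct primes `p_i ∣ n + i`.
`badStarts x K`: the integers `2 ≤ n ≤ x` such that some block `n, ..., n+k-1` with `k ≤ K`
(prime or composite members) has no Grimm assignment.
-/

set_option autoImplicit false

open Filter Pool.Agent.Helper32.Grimm in
/-- For `a, ε > 0` and large `x`, for all but `x exp (-(1/(2a) - a - ε) √(log x log log x))` of the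
integers `2 ≤ n ≤ x` every block `n, ..., n+k-1` of length `k ≤ exp (a √(log x log log x))` has a
Grimm assignment. -/
theorem Pool.Agent.Results.MP_fced2d_nt.AlmostAllBlocks.result (a ε : ℝ) (ha : 0 < a)
    (hε : 0 < ε) : ∀ᶠ x : ℕ in atTop,
      ((badStarts x ⌊Real.exp (a * √(Real.log x * Real.log (Real.log x)))⌋₊).card : ℝ) ≤
      x * Real.exp (-((1 / (2 * a) - a - ε) * √(Real.log x * Real.log (Real.log x)))) :=
  badStarts_asymp ha hε
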