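import Pool.Agent.Helper52.Grimm.Asym

/-!
# MP_fced2d_nt: Grimm's conjecture for almost all maximal composite runs

All but `x exp(-(1/√2 - ε) √(log x log log x))` of the maximal composite runs which start below `x`
have a Grimm assignment, for every `ε > 0` and `x ≥ x₀(ε)`.
-/

set_option autoImplicit false

namespace Pool.Agent.Results.MP_fced2d_nt.AlmostAllRuns

open Pool.Agent.Helper52.Grimm Filter

/-- Let `ε > 0` and let `x` be sufficiently large. The number of `n ≤ x` which are the first member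
of a maximal composite run `n, ..., n + k - 1` (all members composite, `n - 1` and `n + k` prime)
for which there are no pairwise distinct primes `p₀, ..., p_{k-1}` with `pᵢ ∣ n + i` is at most
`x exp(-(1/√2 - ε) √(log x log log x))`. -/
theorem result : ∀ ε : ℝ, 0 < ε → ∃ x₀ : ℝ, ∀ x : ℝ, x₀ ≤ x →
    (Set.ncard {n : ℕ | (n : ℝ) ≤ x ∧ ∃ k : ℕ,
      (1 ≤ k ∧ (∀ i < k, 1 < n + i ∧ ¬ (n + i).Prime) ∧ (n - 1).Prime ∧ (n + k).Prime) ∧
      ¬ ∃ p : Fin k → ℕ, Function.Injective p ∧ ∀ i : Fin k, (p i).Prime ∧ p i ∣ n + (i : ℕ)} : ℝ) ≤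
    x * Real.exp (-(1 / √2 - ε) * √(Real.log x * Real.log (Real.log x))) := by
  intro ε hε
  obtain ⟨x₀, hx₀⟩ := eventually_atTop.mp (main_bound hε)
  refine ⟨max x₀ 0, fun x hx => ?_⟩
  have h0 : 0 ≤ x := (le_max_right _ _).trans hx
  have hset : {n : ℕ | (n : ℝ) ≤ x ∧ ∃ k : ℕ,
      (1 ≤ k ∧ (∀ i < k, 1 < n + i ∧ ¬ (n + i).Prime) ∧ (n - 1).Prime ∧ (n + k).Prime) ∧
      ¬ ∃ p : Fin k → ℕ, Function.Injective p ∧ ∀ i : Fin k, (p i).Prime ∧ p i ∣ n + (i : ℕ)} =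
      (fails ⌊x⌋₊ : Set ℕ) := by
    ext n
    rw [Finset.mem_coe, mem_fails]
    constructor
    · rintro ⟨h1, k, h2, h3⟩
      refine ⟨⟨?_, Nat.le_floor h1⟩, k, h2, h3⟩
      have := h2.2.2.1.pos
      omega
    · rintro ⟨⟨_, h1⟩, k, h2, h3⟩
      exact ⟨(Nat.le_floor_iff h0).mp h1, k, h2, h3⟩
  rw [hset, Set.ncard_coe_finset]
  exact hx₀ x ((le_max_left _ _).trans hx)

end Pool.Agent.Results.MP_fced2d_nt.AlmostAllRuns
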