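import Pool.Agent.Helper11.Grimm.Fin

/-!
# MP_fced2d_nt: blocks of length `n^(3/7 + ε)` have no Grimm assignment

For every `ε > 0` and all large `n`, a block `n, ..., n + k - 1` with `k ≥ n^(3/7 + ε)` has no Grimm
assignment, and every partial assignment leaves out at least `k n^(-ε)` members. So Grimm's conjecture
implies that the gap after a large prime `p` is smaller than `p^(3/7 + ε)`.
-/

set_option autoImplicit false

namespace Pool.Agent.Results.MP_fced2d_nt.ShortBlocksFail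

/-- (1) Let `ε > 0`, let `n` be large and `n^(3/7+ε) ≤ k ≤ n`. Every set `S` of members `n + i` of the
block `n, ..., n + k - 1` which has pairwise distinct prime divisors `f i` misses at least `k n^(-ε)`
members of the block.
(2) For every `ε > 0` and all large `n`, no block `n, ..., n + k - 1` with `k ≥ n^(3/7+ε)` has a
Grimm assignment.
(3) If Grimm's conjecture is true, then for every `ε > 0` all large consecutive primes `p < q` satisfy
`q - p < p^(3/7+ε)`. -/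
theorem result :
    (∀ ε : ℝ, 0 < ε → ∃ N : ℕ, ∀ n k : ℕ, N ≤ n → (n : ℝ) ^ (3 / 7 + ε) ≤ k → k ≤ n →
      ∀ (S : Finset ℕ) (f : ℕ → ℕ), S ⊆ Finset.range k → (∀ i ∈ S, (f i).Prime ∧ f i ∣ n + i) →
        (∀ i ∈ S, ∀ j ∈ S, f i = f j → i = j) → (k : ℝ) * (n : ℝ) ^ (-ε) ≤ k - S.card) ∧
    (∀ ε : ℝ, 0 < ε → ∃ N : ℕ, ∀ n k : ℕ, N ≤ n → (n : ℝ) ^ (3 / 7 + ε) ≤ k →
      ¬ ∃ p : Fin k → ℕ, Function.Injective p ∧ ∀ i : Fin k, (p i).Prime ∧ p i ∣ n + (i : ℕ)) ∧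
    ((∀ n k : ℕ, 1 ≤ n → 1 ≤ k → (∀ i : ℕ, i < k → 1 < n + i ∧ ¬ (n + i).Prime) →
      ∃ p : Fin k → ℕ, Function.Injective p ∧ ∀ i : Fin k, (p i).Prime ∧ p i ∣ n + (i : ℕ)) →
      ∀ ε : ℝ, 0 < ε → ∃ N : ℕ, ∀ p q : ℕ, N ≤ p → p.Prime → q.Prime → p < q →
        (∀ r, p < r → r < q → ¬ r.Prime) → (q : ℝ) - p < (p : ℝ) ^ (3 / 7 + ε)) := by
  refine ⟨fun ε hε => ?_, fun ε hε => ?_, fun G ε hε => Helper11.Grimm.gaps G hε⟩
  · obtain ⟨N, -, h⟩ := Helper11.Grimm.missing hε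
    exact ⟨N, h⟩
  · obtain ⟨N, -, h⟩ := Helper11.Grimm.no_assignment hε
    exact ⟨N, h⟩

end Pool.Agent.Results.MP_fced2d_nt.ShortBlocksFail
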