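import Pool.Agent.GTT.Main

/-!
# MP_fced2d_nt: Grimm assignments for all blocks of length `(log n)^(10/3 - o(1))`

For all large `n` and all `k ≤ (log n)^(10/3) / (log log n)^60` the block `n, ..., n + k - 1`
(prime or composite members) has pairwise distinct primes `p i ∣ n + i`. The exponent `10/3` replaces
the exponent `3` of Ramachandra, Shorey and Tijdeman (1975).
-/

set_option autoImplicit false

open Filter

namespace Pool.Agent.Results.MP_fced2d_nt.TenThirds

/-- For all sufficiently large `n` and every `k` with `k ≤ (log n)^(10/3) / (log log n)^60` there are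
pairwise distinct primes `p 0, ..., p (k-1)` with `p i ∣ n + i`. -/
theorem result : ∃ N : ℕ, ∀ n k : ℕ, N ≤ n →
    (k : ℝ) ≤ Real.log n ^ (10 / 3 : ℝ) / Real.log (Real.log n) ^ 60 →
      ∃ p : Fin k → ℕ, Function.Injective p ∧ ∀ i : Fin k, (p i).Prime ∧ p i ∣ n + (i : ℕ) := by
  obtain ⟨N, hN⟩ := eventually_atTop.mp GTT.main
  exact ⟨N, fun n k hn hk => hN n hn k hk⟩

end Pool.Agent.Results.MP_fced2d_nt.TenThirds
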